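import Pool.Agent.Helper26.LN6.Chi0

/-!
LN6, leaf D1: `SF3`, `STrB`, `SF3'` (largest classes are not seen by disjoint arcs).
-/

open scoped Classical
open Finset

namespace LN6

namespace WSys

variable {k : ℕ} {Γ F : Type} [Group Γ] [MulAction Γ F] [Fintype F] {W : WSys k Γ F} {b : ℝ}

/-- (F3) for a pair of disjoint arcs: a largest `h`-class is not seen by `h'`. -/
theorem Ax.F3_arc2 (A : W.Ax b) {h h' : Γ} (hk : W.Arc2 h h') {x z : F} (hx : x ∈ W.B h) (hR : W.R x z)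
    (hz : ¬ W.E h x z) : W.v h' x z = 0 := by
  have h4 : 4 ≤ k := by have := A.k5; omega
  have hn : x ≠ z := fun e => hz (Or.inl e)
  have h0 : 0 ≤ W.v h' x z := A.arc_nonneg (hk.right h4) hR hn
  rcases h0.lt_or_eq with hp | hp
  · exfalso
    have hsub := A.isolated hk hR hz hp
    refine not_subset_of_card (hk.right h4) hsub ?_
    have hzn : z ∉ W.cl h x := fun hm => hz (mem_cl.1 hm)
    rw [card_insert_of_notMem hzn]
    have : (W.cl h x).card = W.r := hx
    omega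
  · exact hp.symm

/-- `tr` for a pair of disjoint arcs. -/
theorem Ax.tr_arc2 (A : W.Ax b) {h h' : Γ} (hk : W.Arc2 h h') (hRs : ∀ y, W.R (h⁻¹ • h' • y) y) (x : F) :
    h⁻¹ • h' • x = x ∨ 0 < W.v h x (h⁻¹ • h' • x) ∨ 0 < W.v h' x (h⁻¹ • h' • x) := by
  by_cases hx : h⁻¹ • h' • x = x
  · exact Or.inl hx
  right
  have hR : W.R x (h⁻¹ • h' • x) := W.R_symm (hRs x)
  have hn : x ≠ h⁻¹ • h' • x := fun e => hx e.symm
  obtain ⟨g, rfl, rfl⟩ := hk
  rw [W.v_conj'' _ _ hR hn, W.v_conj'' _ _ hR hn]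
  have e : g⁻¹ • (g * W.s 0 * g⁻¹)⁻¹ • (g * W.s 2 * g⁻¹) • x = (W.s 0)⁻¹ • W.s 2 • (g⁻¹ • x) := by
    simp only [smul_smul]
    congr 1
    group
  rw [e]
  rcases A.tr (g⁻¹ • x) with h1 | h1
  · exfalso
    rw [← e] at h1
    exact hx (smul_left_cancel g⁻¹ h1)
  · exact h1

theorem R_inv_s (W : WSys k Γ F) (i j : ℕ) (hi : i + 1 < k) (hj : j + 1 < k) (x : F) :
    W.R ((W.s j)⁻¹ • W.s i • x) x := by
  have h1 : W.R (W.s i • x) (W.s j • x) := W.R_trans (W.R_s i x hi) (W.R_symm (W.R_s j x hj))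
  have h2 := W.R_smul (W.s j)⁻¹ h1
  rwa [inv_smul_smul] at h2

/-- `tr` for `(s i, s j)`, `i`, `j` far apart. -/
theorem Ax.tr_s (A : W.Ax b) {i j : ℕ} (hij : i + 2 ≤ j ∨ j + 2 ≤ i) (hi : i + 1 < k) (hj : j + 1 < k)
    (x : F) : (W.s i)⁻¹ • W.s j • x = x ∨ 0 < W.v (W.s i) x ((W.s i)⁻¹ • W.s j • x) ∨
      0 < W.v (W.s j) x ((W.s i)⁻¹ • W.s j • x) := by
  refine A.tr_arc2 ?_ (fun y => W.R_inv_s j i hj hi y) x
  rcases hij with h | h
  · exact W.arc2_lt i j h hj
  · exact W.arc2_gt j i h hi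

theorem SF3_of (A : W.Ax b) : W.SF3 := fun i h2 hi _ hx _ hR hz => A.F3_arc2 (W.arc2_zero i h2 hi) hx hR hz

/-- on a largest class of `s i`, all far generators `s j` act as `s i`. -/
theorem Ax.STr_gen (A : W.Ax b) {i j : ℕ} (hij : i + 2 ≤ j ∨ j + 2 ≤ i) (hi : i + 1 < k) (hj : j + 1 < k)
    {x : F} (hx : x ∈ W.B (W.s i)) : W.E (W.s i) (W.s i • x) (W.s j • x) := by
  set y : F := (W.s i)⁻¹ • W.s j • x with hy
  have hR : W.R x y := W.R_symm (W.R_inv_s j i hj hi x)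
  have hk : W.Arc2 (W.s i) (W.s j) := by
    rcases hij with h | h
    · exact W.arc2_lt i j h hj
    · exact W.arc2_gt j i h hi
  have key : W.E (W.s i) x y := by
    by_contra hE
    rcases A.tr_s hij hi hj x with h1 | h1 | h1
    · exact hE (Or.inl h1.symm)
    · exact hE (Or.inr ⟨hR, h1⟩)
    · rw [A.F3_arc2 hk hx hR hE] at h1
      exact lt_irrefl _ h1
  have h2 := (E_smul (Commute.refl (W.s i)).eq (x := x) (y := y)).2 key
  rwa [hy, smul_inv_smul] at h2

theorem STrB_of (A : W.Ax b) : W.STrB := fun i h2 hi _ hx => by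
  have := A.k5
  exact A.STr_gen (Or.inl (by omega)) (by omega) hi hx

/-- (F3') : the full twist of the first `m` strands does not see a largest class of `s i`, `m ≤ i`. -/
theorem SF3'_of (A : W.Ax b) : W.SF3' := by
  intro i m hm hmi hi x hx z hR hz
  have hn : x ≠ z := fun e => hz (Or.inl e)
  set O := orb (W.Bm m) x z with hO
  have hG : W.Good O := good_orb (W.Bm m) hR hn
  have hcomm : ∀ g ∈ W.Bm m, g * W.s i = W.s i * g := fun g hg =>
    (W.commute_of_Bm (fun j hj => W.commute_s j i (by omega) hi) hg).eq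
  have hs : ∀ j, j + 1 < m → W.chi O (W.s j) = 0 := by
    intro j hj
    refine sum_eq_zero ?_
    intro p hp
    obtain ⟨g, hg, rfl⟩ := mem_orb.1 hp
    refine A.F3_arc2 (W.arc2_gt j i (by omega) hi) ?_ (W.R_smul g hR) ?_
    · exact (B_smul (hcomm g hg) x).2 hx
    · intro hE
      exact hz ((E_smul (hcomm g hg)).1 hE)
  have hall : ∀ g ∈ W.Bm m, W.chi O g = 0 := by
    intro g hg
    refine Subgroup.closure_induction (p := fun g _ => W.chi O g = 0) ?_ ?_ ?_ ?_ hg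
    · rintro g ⟨j, hj, rfl⟩
      exact hs j hj
    · exact chi_one hG
    · intro g h hg' hh' h1 h2
      rw [chi_mul hG (le_stab_orb (W.Bm m) x z hg') (le_stab_orb (W.Bm m) x z hh'), h1, h2, add_zero]
    · intro g _ h1
      rw [chi_inv hG, h1, neg_zero]
  have hT := hall (W.T m) (W.T_mem_Bm m)
  have hconst : W.chi O (W.T m) = O.card * W.v (W.T m) x z := by
    unfold chi
    rw [sum_congr rfl (eq_on_orb (S := W.Bm m) (fun h hh => ?_) hR hn)]
    · simp [hO]
    · exact ((W.Bm_commute_T (by omega) hh).eq).symm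
  rw [hconst] at hT
  have hc : (0 : ℝ) < O.card := by exact_mod_cast orb_card_pos (W.Bm m) x z
  rcases mul_eq_zero.1 hT with h1 | h1
  · exact absurd h1 hc.ne'
  · exact h1

end WSys

end LN6
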