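import Pool.Agent.Helper91.LN6.Lev

/-!
LN6, leaf E4: `SQ b m` from `SLV b m` for `3 ≤ m < k` (memo_LN6_helper26.md, (LL)).
-/

open scoped Classical
open Finset

namespace LN6

namespace WSys

variable {k : ℕ} {Γ F : Type} [Group Γ] [MulAction Γ F] [Fintype F] {W : WSys k Γ F} {b : ℝ}

theorem mem_Q_iff {m : ℕ} {x : F} : x ∈ W.Q b m ↔ ∃ y ∈ W.B (W.s 0), W.Lv b m x y := by
  constructor
  · rintro (h | ⟨y, hy, hR, hb⟩)
    · exact ⟨x, h, Lv.refl W b m x⟩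
    · exact ⟨y, hy, hR, fun _ => hb⟩
  · rintro ⟨y, hy, hR, hb⟩
    by_cases hxy : x = y
    · left
      rw [hxy]
      exact hy
    · exact Or.inr ⟨y, hy, hR, hb hxy⟩

/-- (LL) and the basic properties of the balls `Q m`. -/
theorem SQ_of (A : W.Ax b) {m : ℕ} (h3m : 3 ≤ m) (hm : m < k) (hL : W.SLV b m) : W.SQ b m := by
  have h2m : 2 ≤ m := by omega
  -- (2)
  have hq2 : ∀ g ∈ W.Bm m, ∀ x, x ∈ W.B (g * W.s 0 * g⁻¹) → x ∈ W.Q b m := by
    intro g hg x hx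
    obtain ⟨y, hy, hR⟩ := A.exists_B W.arc_s0 x
    refine mem_Q_iff.2 ⟨y, hy, hR, fun hne => hL x y ⟨g, hg, hx⟩ ⟨1, one_mem _, ?_⟩ hR hne⟩
    simpa using hy
  -- (1)
  have hq1 : ∀ g ∈ W.Bm m, ∀ x, x ∈ W.Q b m → g • x ∈ W.Q b m := by
    intro g hg x hx
    obtain ⟨y, hy, hxy⟩ := mem_Q_iff.1 hx
    have h1 : W.Lv b m (g • x) (g • y) := Lv.smul hm.le hg hxy
    have h2 : g • y ∈ W.Q b m := hq2 g hg _ ((B_conj g _ _).2 hy)
    obtain ⟨y', hy', h3⟩ := mem_Q_iff.1 h2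
    exact mem_Q_iff.2 ⟨y', hy', Lv.trans A h2m hm h1 h3⟩
  refine ⟨hq1, hq2, ?_, ?_⟩
  · -- (3)
    intro x y hx hy hR hne
    obtain ⟨x', hx', h1⟩ := mem_Q_iff.1 hx
    obtain ⟨y', hy', h2⟩ := mem_Q_iff.1 hy
    have hR' : W.R x' y' := W.R_trans (W.R_symm h1.1) (W.R_trans hR h2.1)
    have h3 : W.Lv b m x' y' := ⟨hR', fun hne' =>
      hL x' y' ⟨1, one_mem _, by simpa using hx'⟩ ⟨1, one_mem _, by simpa using hy'⟩ hR' hne'⟩
    exact (Lv.trans A h2m hm h1 (Lv.trans A h2m hm h3 h2.symm)).2 hne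
  · -- (4)
    intro x y hx hy hR
    have hne : x ≠ y := fun e => hx (e ▸ hy)
    by_contra hv
    have hpos : 0 < W.v (W.T m) x y := lt_of_le_of_ne (A.T_nonneg hm.le hR hne) (Ne.symm hv)
    obtain ⟨g, hg, hp⟩ := A.exists_of_T_pos hm.le hR hne hpos
    have hRg : W.R (g • x) (g • y) := W.R_smul g hR
    have hgy : g • y ∈ W.Q b m := hq1 g hg y hy
    have hgx : g • x ∉ W.Q b m := by
      intro h
      have := hq1 g⁻¹ (inv_mem hg) _ h
      rw [inv_smul_smul] at this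
      exact hx this
    have hE : W.E (W.s 0) (g • x) (g • y) := E_of_pos hRg hp
    have hyB : g • y ∉ W.B (W.s 0) := by
      intro h
      exact hgx (Or.inl (A.B_of_E W.arc_s0 hE.symm h))
    obtain ⟨y0, hy0, hL0⟩ := mem_Q_iff.1 hgy
    have hne0 : g • y ≠ y0 := fun e => hyB (e ▸ hy0)
    have hnE : ¬ W.E (W.s 0) (g • y) y0 := fun h => hyB (A.B_of_E W.arc_s0 h.symm hy0)
    have hneg : g • y ≠ g • x := fun e => hne (smul_left_cancel g e).symm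
    have h1 := A.nest_le h3m hm (i := 0) (by omega) hE.symm hneg hL0.1 hnE
    refine hgx (mem_Q_iff.2 ⟨y0, hy0, ?_⟩)
    have h2 : W.Lv b m (g • x) (g • y) :=
      ⟨hRg, fun _ => by rw [W.v_symm]; exact (hL0.2 hne0).trans h1⟩
    exact Lv.trans A h2m hm h2 hL0

end WSys

end LN6
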